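import Pool.Agent.Helper43.Gm.Goals
import Pool.Agent.Helper43.Ah.Row
import Pool.Agent.Lead.RwRed

/-!
Packet A of MP_d3128a_ag: skew rows with prices.
-/

set_option autoImplicit false
set_option linter.unusedSectionVars false

namespace Pool.Agent.Helper43.Gm.PkA

open Finset Pool.Agent.Lead.Sh

lemma kill (D : Finset (ℕ × ℕ)) (c' : ℕ × ℕ → ℂ) (ν : ℕ) (x y : ℂ)
    (hc : ∀ o : ℕ × ℕ, o.1 + o.2 < ν → ∑ d ∈ D, c' d * E o d x y = 0) {G : ℕ × ℕ → ℂ}
    (hG : Pool.Agent.Lead.Rw.Sm ν G) :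
    ∑ d ∈ D, c' d * (x ^ d.1 * y ^ d.2 * G d) = 0 := by
  have h0 := hG D (fun d => c' d * (x ^ d.1 * y ^ d.2)) (fun o ho => by
    have h1 := hc o ho
    have h2 : ∀ d ∈ D, c' d * (x ^ d.1 * y ^ d.2) * E o d 1 1 =
        x ^ o.1 * y ^ o.2 * (c' d * E o d x y) := by
      intro d _
      unfold E
      rcases lt_or_ge d.1 o.1 with h2 | h2
      · rw [Nat.choose_eq_zero_of_lt h2]; simp
      rcases lt_or_ge d.2 o.2 with h3 | h3
      · rw [Nat.choose_eq_zero_of_lt h3]; simp
      have h4 : x ^ d.1 = x ^ o.1 * x ^ (d.1 - o.1) := by rw [← pow_add, Nat.add_sub_cancel' h2]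
      have h5 : y ^ d.2 = y ^ o.2 * y ^ (d.2 - o.2) := by rw [← pow_add, Nat.add_sub_cancel' h3]
      rw [h4, h5]
      simp only [one_pow, mul_one]
      ring
    rw [sum_congr rfl h2, ← mul_sum, h1, mul_zero])
  refine Eq.trans ?_ h0
  apply sum_congr rfl
  intro d _
  ring

lemma Sm_choose (a : ℕ) : Pool.Agent.Lead.Rw.Sm (a + 1) (fun d => (d.1.choose a : ℂ)) := by
  intro D c hc
  have := hc (a, 0) (by simp)
  refine Eq.trans ?_ this
  apply sum_congr rfl
  intro d _
  simp [E]

lemma row_zero (p y sy ly N : ℕ) (D : Finset (ℕ × ℕ))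
    (hD : ∀ d ∈ D, p * d.1 + d.2 = y → sy ≤ d.1 ∧ d.1 < sy + ly) (γ : ℕ × ℕ → ℂ) (n : ℕ → ℕ)
    (hn : ly ≤ ∑ c ∈ range N, n c)
    (h : ∀ c < N, ∀ a < n c, ∑ d ∈ D.filter (fun d => p * d.1 + d.2 = y),
      γ d * ((d.1.choose a : ℂ) * ((c : ℂ) + 1) ^ d.1) = 0) :
    ∀ d ∈ D, p * d.1 + d.2 = y → γ d = 0 := by
  classical
  set g : ℕ → ℂ := fun k => if (k, y - p * k) ∈ D ∧ p * k ≤ y then γ (k, y - p * k) else 0 with hg
  have hgd : ∀ d ∈ D, p * d.1 + d.2 = y → g d.1 = γ d := by
    intro d hd hy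
    have h1 : (d.1, y - p * d.1) = d := by
      apply Prod.ext
      · rfl
      · show y - p * d.1 = d.2
        omega
    simp only [hg]
    rw [h1, if_pos ⟨hd, by omega⟩]
  have hsum : ∀ F : ℕ → ℂ, ∑ d ∈ D.filter (fun d => p * d.1 + d.2 = y), γ d * F d.1 =
      ∑ k ∈ range (sy + ly), g k * F k := by
    intro F
    rw [← sum_subset (s₁ := (D.filter (fun d => p * d.1 + d.2 = y)).image Prod.fst)]
    · rw [sum_image]
      · apply sum_congr rfl
        intro d hd
        rw [mem_filter] at hd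
        rw [hgd d hd.1 hd.2]
      · intro a ha b hb hab
        have ha' := (mem_filter.1 ha).2
        have hb' := (mem_filter.1 hb).2
        apply Prod.ext hab
        rw [hab] at ha'
        omega
    · intro k hk
      rw [mem_image] at hk
      obtain ⟨d, hd, rfl⟩ := hk
      rw [mem_filter] at hd
      rw [mem_range]
      exact (hD d hd.1 hd.2).2
    · intro k _ hk
      have : g k = 0 := by
        simp only [hg]
        rw [if_neg]
        rintro ⟨h1, h2⟩
        apply hk
        rw [mem_image]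
        exact ⟨(k, y - p * k), mem_filter.2 ⟨h1, by simp only; omega⟩, rfl⟩
      rw [this, zero_mul]
  have hz : ∀ k < sy + ly, g k = 0 := by
    apply Pool.Agent.Helper43.Ah.hermite (sy + ly) (N + 1) (fun i => (i : ℂ)) (by
      intro i _ j _ hij
      simpa using hij) (fun c => if c = 0 then sy else n (c - 1)) (by
      rw [sum_range_succ']
      simp only [Nat.add_eq_zero_iff, one_ne_zero, and_false, if_false, if_true,
        Nat.add_sub_cancel]
      omega) g
    intro c hc a ha
    rcases Nat.eq_zero_or_pos c with rfl | hc0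
    · simp only [if_true] at ha
      apply sum_eq_zero
      intro k _
      rcases lt_trichotomy k a with h1 | h1 | h1
      · rw [Nat.choose_eq_zero_of_lt h1]; simp
      · subst h1
        have : g k = 0 := by
          simp only [hg]
          rw [if_neg]
          rintro ⟨h2, h3⟩
          have := (hD _ h2 (by simp only; omega)).1
          simp only at this
          omega
        rw [this, zero_mul]
      · rw [Nat.cast_zero, zero_pow (by omega), mul_zero, mul_zero]
    · obtain ⟨c', rfl⟩ : ∃ c', c = c' + 1 := ⟨c - 1, by omega⟩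
      simp only [Nat.add_eq_zero_iff, one_ne_zero, and_false, if_false,
        Nat.add_sub_cancel] at ha
      have h1 := h c' (by omega) a ha
      rw [hsum (fun k => (k.choose a : ℂ) * ((c' : ℂ) + 1) ^ k)] at h1
      have h2 : ((c' : ℂ) + 1) ^ a * ∑ k ∈ range (sy + ly), g k * ((k.choose a : ℂ) *
          (((c' + 1 : ℕ) : ℂ)) ^ (k - a)) = 0 := by
        refine Eq.trans ?_ h1
        rw [mul_sum]
        apply sum_congr rfl
        intro k _
        rcases lt_or_ge k a with h3 | h3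
        · rw [Nat.choose_eq_zero_of_lt h3]; simp
        · have h4 : ((c' : ℂ) + 1) ^ k = ((c' : ℂ) + 1) ^ a * ((c' : ℂ) + 1) ^ (k - a) := by
            rw [← pow_add, Nat.add_sub_cancel' h3]
          rw [h4]
          push_cast
          ring
      rcases mul_eq_zero.1 h2 with h3 | h3
      · exfalso
        have h4 : ((c' : ℂ) + 1) ≠ 0 := by exact_mod_cast Nat.succ_ne_zero c'
        exact pow_ne_zero a h4 h3
      · exact h3
  intro d hd hy
  rw [← hgd d hd hy]
  exact hz _ (hD d hd hy).2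

/-- **Packet A.** -/
theorem goalA : GoalA := by
  classical
  intro p R s ℓ D hD N ν n π ε hPri hℓ
  -- choose the sets of better rows
  have hU' : ∀ c y, ∃ U : Finset ℕ, c < N → y < R → 0 < n c y → y ∉ U ∧ U.card + n c y ≤ ν c ∧
      ∀ y' < R, y' ∉ U → y' ≠ y → π y' - ε c * y' < π y - ε c * y := by
    intro c y
    by_cases h : c < N ∧ y < R ∧ 0 < n c y
    · obtain ⟨U, hU1⟩ := hPri c h.1 y h.2.1 h.2.2
      exact ⟨U, fun _ _ _ => hU1⟩
    · exact ⟨∅, fun h1 h2 h3 => absurd ⟨h1, h2, h3⟩ h⟩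
  choose U hU1 using hU'
  -- the index set of the conditions used
  set I : Finset (ℕ × ℕ × ℕ) := (range N).biUnion (fun c => (range R).biUnion (fun y =>
    (range (n c y)).image (fun a => (c, y, a)))) with hI
  have hmemI : ∀ c y a, (c, y, a) ∈ I ↔ c < N ∧ y < R ∧ a < n c y := by
    intro c y a
    rw [hI, mem_biUnion]
    constructor
    · rintro ⟨c', hc', h⟩
      rw [mem_biUnion] at h
      obtain ⟨y', hy', h⟩ := h
      rw [mem_image] at h
      obtain ⟨a', ha', he⟩ := h
      rw [mem_range] at hc' hy' ha'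
      simp only [Prod.mk.injEq] at he
      obtain ⟨rfl, rfl, rfl⟩ := he
      exact ⟨hc', hy', ha'⟩
    · rintro ⟨h1, h2, h3⟩
      refine ⟨c, mem_range.2 h1, mem_biUnion.2 ⟨y, mem_range.2 h2, mem_image.2
        ⟨a, mem_range.2 h3, rfl⟩⟩⟩
  set V : ℕ → ℕ → ℤ := fun c y => π y - ε c * y with hV
  set ρ : ℕ × ℕ → ℕ := fun d => p * d.1 + d.2 with hρ
  set q : ℕ → ℕ → ℕ × ℕ → ℂ := fun c y d => ∏ y' ∈ U c y,
    ((p : ℂ) * (d.1 : ℂ) + 1 * (d.2 : ℂ) - (y' : ℂ)) with hq
  have hqeval : ∀ c y d, q c y d = 0 ↔ ρ d ∈ U c y := by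
    intro c y d
    simp only [hq, hρ]
    rw [prod_eq_zero_iff]
    constructor
    · rintro ⟨y', hy', h⟩
      have h1 : ((p * d.1 + d.2 : ℕ) : ℂ) = (y' : ℂ) := by
        push_cast
        linear_combination h
      have : p * d.1 + d.2 = y' := by exact_mod_cast h1
      rwa [this]
    · intro h
      exact ⟨p * d.1 + d.2, h, by push_cast; ring⟩
  set cf : ℕ × ℕ × ℕ → ℕ × ℕ → ℂ := fun i d =>
    (q i.1 i.2.1 d * (d.1.choose i.2.2 : ℂ)) * ((i.1 : ℂ) + 1) ^ d.1 with hcf
  obtain ⟨e, he, hinj⟩ := poly_inj (fun (i : ↥I) (d : ↥D) =>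
    (Polynomial.X ^ (V (i : ℕ × ℕ × ℕ).1 (i : ℕ × ℕ × ℕ).2.1 -
      V (i : ℕ × ℕ × ℕ).1 (ρ d)).toNat * Polynomial.C (cf i d) : Polynomial ℂ)) (by
    intro γ hγ
    set γ2 : ℕ × ℕ → ℂ := fun d => if h : d ∈ D then γ ⟨d, h⟩ else 0 with hγ2
    have hγ2' : ∀ d : ↥D, γ2 d = γ d := by
      intro d; simp only [hγ2]; rw [dif_pos d.2]
    have key : ∀ y < R, ∀ d ∈ D, p * d.1 + d.2 = y → γ2 d = 0 := by
      intro y hy
      apply row_zero p y (s y) (ℓ y) N D (fun d hd hdy => by
        have := hD d hd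
        rw [hdy] at this
        exact this.2) γ2 (fun c => n c y) (hℓ y hy)
      intro c hc a ha
      have h1 := hγ ⟨(c, y, a), (hmemI c y a).2 ⟨hc, hy, ha⟩⟩
      obtain ⟨u1, u2, u3⟩ := hU1 c y hc hy (by omega)
      have h2 : ∑ d ∈ D, γ2 d * (Polynomial.eval 0 (Polynomial.X ^ (V c y -
          V c (ρ d)).toNat * Polynomial.C (cf (c, y, a) d))) = 0 := by
        rw [← sum_coe_sort D]
        refine Eq.trans ?_ h1
        apply sum_congr rfl
        intro d _
        rw [hγ2']
      rw [← sum_filter_add_sum_filter_not D (fun d => p * d.1 + d.2 = y)] at h2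
      have h4 : ∑ d ∈ D.filter (fun d => ¬ p * d.1 + d.2 = y), γ2 d * (Polynomial.eval 0
          (Polynomial.X ^ (V c y - V c (ρ d)).toNat * Polynomial.C (cf (c, y, a) d))) = 0 := by
        apply sum_eq_zero
        intro d hd
        rw [mem_filter] at hd
        obtain ⟨hd, hne⟩ := hd
        have hdR := (hD d hd).1
        rw [Polynomial.eval_mul, Polynomial.eval_C, Polynomial.eval_pow, Polynomial.eval_X]
        by_cases hu : ρ d ∈ U c y
        · have : cf (c, y, a) d = 0 := by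
            rw [hcf]
            simp only
            rw [(hqeval c y d).2 hu, zero_mul, zero_mul]
          rw [this, mul_zero, mul_zero]
        · have h5 := u3 (ρ d) hdR hu hne
          have : (V c y - V c (ρ d)).toNat ≠ 0 := by
            simp only [hV]
            omega
          rw [zero_pow this, zero_mul, mul_zero]
      rw [h4, add_zero] at h2
      have hq0 : ∀ d ∈ D.filter (fun d => p * d.1 + d.2 = y), q c y d =
          ∏ y' ∈ U c y, ((y : ℂ) - (y' : ℂ)) := by
        intro d hd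
        rw [mem_filter] at hd
        simp only [hq]
        apply prod_congr rfl
        intro y' _
        have : ((p * d.1 + d.2 : ℕ) : ℂ) = (y : ℂ) := by rw [hd.2]
        push_cast at this
        linear_combination this
      have h3 : (∏ y' ∈ U c y, ((y : ℂ) - (y' : ℂ))) *
          ∑ d ∈ D.filter (fun d => p * d.1 + d.2 = y),
            γ2 d * ((d.1.choose a : ℂ) * ((c : ℂ) + 1) ^ d.1) = 0 := by
        refine Eq.trans ?_ h2
        rw [mul_sum]
        apply sum_congr rfl
        intro d hd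
        have hq1 := hq0 d hd
        rw [mem_filter] at hd
        have hρy : ρ d = y := hd.2
        rw [hρy, sub_self, Int.toNat_zero, pow_zero, one_mul, Polynomial.eval_C, hcf]
        simp only
        rw [hq1]
        ring
      rcases mul_eq_zero.1 h3 with h5 | h5
      · exfalso
        rw [prod_eq_zero_iff] at h5
        obtain ⟨y', hy', h6⟩ := h5
        rw [sub_eq_zero] at h6
        have h7 : y = y' := by exact_mod_cast h6
        rw [← h7] at hy'
        exact u1 hy'
      · exact h5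
    funext d
    rw [← hγ2', Pi.zero_apply]
    exact key _ (hD d d.2).1 _ d.2 rfl)
  refine ⟨fun c => (((c : ℂ) + 1) * e ^ ((p : ℤ) * ε c), e ^ (ε c)), ?_⟩
  intro c' hc' d hd
  have hkey := hinj (fun d => c' d * e ^ (π (ρ d))) (by
    rintro ⟨⟨c, y, a⟩, hi⟩
    obtain ⟨hc, hy, ha⟩ := (hmemI c y a).1 hi
    obtain ⟨u1, u2, u3⟩ := hU1 c y hc hy (by omega)
    have hSm : Pool.Agent.Lead.Rw.Sm (ν c) (fun d => q c y d * (d.1.choose a : ℂ)) := by
      have := Pool.Agent.Lead.Rw.Sm.prodlam (U c y) (fun y' => (y' : ℂ)) (p : ℂ) 1 (Sm_choose a)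
      exact this.mono (by omega)
    have h1 := kill D c' (ν c) (((c : ℂ) + 1) * e ^ ((p : ℤ) * ε c)) (e ^ (ε c)) (by
      intro o ho
      exact hc' (c, o) (by rw [mem_rows, mem_range]; exact ⟨hc, ho⟩)) hSm
    have h2 : e ^ (V c y) * ∑ d ∈ D, c' d * ((((c : ℂ) + 1) * e ^ ((p : ℤ) * ε c)) ^ d.1 *
        (e ^ (ε c)) ^ d.2 * (q c y d * (d.1.choose a : ℂ))) = 0 := by rw [h1, mul_zero]
    rw [mul_sum] at h2
    simp only
    rw [sum_coe_sort D (fun d => c' d * e ^ (π (ρ d)) * Polynomial.eval e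
      (Polynomial.X ^ (V c y - V c (ρ d)).toNat * Polynomial.C (cf (c, y, a) d)))]
    refine Eq.trans ?_ h2
    apply sum_congr rfl
    intro d hd
    have hdR := (hD d hd).1
    rw [Polynomial.eval_mul, Polynomial.eval_C, Polynomial.eval_pow, Polynomial.eval_X]
    have hcfd : cf (c, y, a) d = (q c y d * (d.1.choose a : ℂ)) * ((c : ℂ) + 1) ^ d.1 := rfl
    rw [hcfd]
    by_cases hu : ρ d ∈ U c y
    · rw [(hqeval c y d).2 hu]
      simp
    · have hnn : V c (ρ d) ≤ V c y := by
        by_cases hne : ρ d = y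
        · rw [hne]
        · exact (u3 (ρ d) hdR hu hne).le
      have hpow : e ^ (π (ρ d)) * e ^ (V c y - V c (ρ d)).toNat =
          e ^ (V c y) * ((e ^ ((p : ℤ) * ε c)) ^ d.1 * (e ^ (ε c)) ^ d.2) := by
        rw [← zpow_natCast e, Int.toNat_of_nonneg (by omega), ← zpow_add₀ he, ← zpow_natCast,
          ← zpow_mul, ← zpow_natCast, ← zpow_mul, ← zpow_add₀ he, ← zpow_add₀ he]
        congr 1
        simp only [hV, hρ]
        push_cast
        ring
      rw [mul_pow]
      linear_combination (c' d * ((q c y d * (d.1.choose a : ℂ)) * ((c : ℂ) + 1) ^ d.1)) * hpow)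
  have h1 := congrFun hkey ⟨d, hd⟩
  simp only [Pi.zero_apply] at h1
  rcases mul_eq_zero.1 h1 with h2 | h2
  · exact h2
  · exact absurd h2 (zpow_ne_zero _ he)

end Pool.Agent.Helper43.Gm.PkA
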