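import Pool.Agent.Helper43.Gm.Goals
import Pool.Agent.Helper43.Gm.Goals2
import Pool.Agent.Helper18.CuspSwap

/-!
Packet H3 of MP_d3128a_ag: columns from left to right.
-/

set_option autoImplicit false

namespace Pool.Agent.Helper43.Gm.PkH3

open Finset Pool.Agent.Lead.Sh
open Helper18.Tw (Hgt)
open Pool.Agent.Lead.Rw (Ind')

lemma ind'_swap {D : Finset (ℕ × ℕ)} {m : ℕ → ℕ} {S : Finset ℕ}
    (h : Ind' (D.image Prod.swap) (rows m S)) : Ind' D (rows m S) := by
  obtain ⟨D1, h1, h2, h3⟩ := h
  refine ⟨D1.image Prod.swap, ?_, ?_, ?_⟩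
  · intro x hx
    rw [mem_image] at hx
    obtain ⟨y, hy, rfl⟩ := hx
    have := h1 hy
    rw [mem_image] at this
    obtain ⟨z, hz, rfl⟩ := this
    rw [Prod.swap_swap]
    exact hz
  · rw [card_image_of_injective _ Prod.swap_injective, h2]
  · apply Helper18.Cusp.inj_swap
    rw [image_image]
    simpa using h3

section
variable {f : ℕ → ℕ} {w κ : ℕ} (hf : Hgt f w κ)
include hf

lemma f_step (b : ℕ) : f (b + 1) ≤ f b := by
  rcases lt_or_ge b w with h | h
  · rw [hf.wall b h]; exact hf.le _
  · rcases Nat.eq_zero_or_pos (f (b + 1)) with h0 | h0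
    · omega
    · exact (hf.strict b h h0).le

lemma f_anti : Antitone f := antitone_nat_of_succ_le (f_step hf)

lemma f_far (t : ℕ) (h0 : 0 < f (w + t)) : f (w + t) + t ≤ κ :=
  (hf.far le_rfl t h0).trans (hf.le w)

lemma ex_h (x : ℕ) : ∃ k, f k ≤ x := by
  refine ⟨w + (κ + 1), ?_⟩
  by_contra h
  have := f_far hf (κ + 1) (by omega)
  omega

/-- the number of `k` with `x < f k` -/
noncomputable def hh (x : ℕ) : ℕ := Nat.find (ex_h hf x)

lemma lt_hh {k x : ℕ} : k < hh hf x ↔ x < f k := by
  unfold hh
  rw [Nat.lt_find_iff]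
  constructor
  · intro h
    have := h k le_rfl
    omega
  · intro h j hj
    have := f_anti hf hj
    omega

lemma hh_le {k x : ℕ} : hh hf x ≤ k ↔ f k ≤ x := by
  have := @lt_hh f w κ hf k x
  constructor
  · intro h
    by_contra h1
    have := this.2 (by omega)
    omega
  · intro h
    by_contra h1
    have := this.1 (by omega)
    omega

lemma hh_drop {x : ℕ} (hx : x + 1 < κ) : hh hf x ≤ hh hf (x + 1) + 1 := by
  rw [hh_le]
  set k := hh hf (x + 1) with hk
  have h1 : f k ≤ x + 1 := (hh_le hf).1 le_rfl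
  rcases lt_or_ge k w with h | h
  · rw [hf.wall k h] at h1
    omega
  · rcases Nat.eq_zero_or_pos (f (k + 1)) with h0 | h0
    · omega
    · have := hf.strict k h h0
      omega

lemma hh_far {j : ℕ} (_h1 : 1 ≤ j) (h2 : j ≤ κ) : hh hf (κ - j) ≤ w + j := by
  rw [hh_le]
  rcases Nat.eq_zero_or_pos (f (w + j)) with h0 | h0
  · omega
  · have := f_far hf j h0
    omega

end

lemma sum_Ico_le (g : ℕ → ℕ) (a b B : ℕ) (h : ∀ y, a ≤ y → y < b → g y ≤ B) :
    ∑ y ∈ Ico a b, g y ≤ (b - a) * B := by
  have := sum_le_card_nsmul (Ico a b) g B (fun y hy => by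
    rw [mem_Ico] at hy
    exact h y hy.1 hy.2)
  rwa [Nat.card_Ico, smul_eq_mul] at this

/-- **Packet H3.** -/
theorem goalH3 (h1 : GoalF1) (h2 : GoalF2) : GoalH3 := by
  classical
  intro f w κ M D' hf hD hM hMw hw hκ hfr
  set E : Finset (ℕ × ℕ) := D'.image Prod.swap with hE
  have hmem : ∀ d : ℕ × ℕ, d ∈ E ↔ d.2 < f d.1 := by
    intro d
    rw [hE, mem_image]
    constructor
    · rintro ⟨x, hx, rfl⟩
      exact (hD x).1 hx
    · intro h
      exact ⟨d.swap, (hD _).2 h, Prod.swap_swap d⟩
  have hReg : Reg 0 κ (fun _ => 0) (hh hf) E := by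
    refine ⟨?_, ?_⟩
    · intro d
      rw [hmem]
      simp only [zero_mul, zero_add, zero_le, true_and]
      rw [lt_hh hf]
      constructor
      · intro h
        exact ⟨lt_of_lt_of_le h (hf.le _), h⟩
      · rintro ⟨-, h⟩
        exact h
    · intro y _ k _ _
      omega
  have hcard : E.card = D'.card := card_image_of_injective _ Prod.swap_injective
  have hcardE : E.card = ∑ y ∈ range κ, hh hf y := by
    have : E = (range κ).biUnion (fun y => (range (hh hf y)).image (fun k => (k, y))) := by
      ext d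
      rw [hmem, mem_biUnion]
      constructor
      · intro h
        refine ⟨d.2, mem_range.2 (lt_of_lt_of_le h (hf.le _)), mem_image.2
          ⟨d.1, mem_range.2 ((lt_hh hf).2 h), rfl⟩⟩
      · rintro ⟨y, hy, hd⟩
        rw [mem_image] at hd
        obtain ⟨k, hk, rfl⟩ := hd
        exact (lt_hh hf).1 (mem_range.1 hk)
    rw [this, card_biUnion]
    · apply sum_congr rfl
      intro y _
      rw [card_image_of_injective _ (fun a b hab => (Prod.mk.inj hab).1), card_range]
    · intro i _ j _ hij
      show Disjoint _ _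
      rw [disjoint_left]
      intro d hd hd'
      rw [mem_image] at hd hd'
      obtain ⟨k, _, rfl⟩ := hd
      obtain ⟨k', _, he⟩ := hd'
      exact hij (Prod.mk.inj he).2.symm
  have hdrop : ∀ y, y + 1 < κ → hh hf y ≤ hh hf (y + 1) + 1 := fun y hy => hh_drop hf hy
  have hthick : ∀ y, y < f (2 * M) → 2 * M + 1 ≤ hh hf y := by
    intro y hy
    have := (lt_hh hf).2 hy
    omega
  have hthin : ∀ y, f (2 * M) ≤ y → hh hf y ≤ 2 * M := fun y hy => (hh_le hf).2 hy
  have hlast : hh hf (κ - 1) ≤ w + 1 := hh_far hf le_rfl (by omega)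
  constructor
  · intro m a b hab hm hS
    apply Helper18.Cusp.inj_swap
    refine h1 0 M κ (fun _ => 0) (hh hf) (hh hf) E (Icc (f (2 * M) + 1) (κ - 1)) hReg (Or.inl rfl)
      (by omega) (by omega) ?_ hdrop ?_ m a b (14 * M ^ 2) hab hm ?_ (by rw [hcard]; exact hS)
    · rw [mem_Icc]; omega
    · intro y hy hn
      right
      apply hthick
      rw [mem_Icc] at hn
      omega
    · rcases le_or_gt (f (2 * M) + 1) (κ - 1) with h3 | h3
      · left
        refine ⟨by rw [mem_Icc]; omega, ?_⟩
        have hcl : cl κ (Icc (f (2 * M) + 1) (κ - 1)) = 0 := by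
          unfold cl
          rw [card_eq_zero, filter_eq_empty_iff]
          intro z hz
          rw [mem_Icc] at hz
          rintro ⟨h4, h5⟩
          rw [mem_Icc] at h5
          omega
        have hw2 : w ≤ 2 * M := by
          by_contra h4
          have := hf.wall (2 * M) (by omega)
          omega
        rw [hcl, Nat.card_Icc]
        have h4 : hh hf (κ - 1) ≤ 2 * M := hthin _ (by omega)
        have h5 : κ - 1 + 1 - (f (2 * M) + 1) ≤ 9 * M - 1 := by omega
        have h6 : (hh hf (κ - 1) + M) * (hh hf (κ - 1) + M - 1) ≤ (3 * M) * (3 * M) :=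
          Nat.mul_le_mul (by omega) (by omega)
        have h7 : 2 * M * (κ - 1 + 1 - (f (2 * M) + 1)) ≤ 2 * M * (9 * M) :=
          Nat.mul_le_mul le_rfl (by omega)
        nlinarith
      · right
        have hempty : Icc (f (2 * M) + 1) (κ - 1) = ∅ := by
          rw [Icc_eq_empty]; omega
        rw [hempty]
        have hcl : cl κ ∅ = 0 := by unfold cl; simp
        rw [hcl, card_empty]
        have h6 : 2 * M * (hh hf (κ - 1) + 2 * M) ≤ 2 * M * (6 * M + 2) :=
          Nat.mul_le_mul le_rfl (by omega)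
        nlinarith
  · intro m a b hab hm hS
    apply ind'_swap
    set J := min (f (2 * M) + 1) (κ - M) with hJ
    have hJ1 : J ≤ f (2 * M) + 1 := min_le_left _ _
    have hJ2 : J ≤ κ - M := min_le_right _ _
    refine h2 0 M κ 0 J (fun _ => 0) (hh hf) (hh hf) E hReg (Or.inl rfl) (by omega) (Nat.zero_le _)
      (by omega) hdrop ?_ (Or.inr (by omega)) m a b hab hm ?_
    · intro y _ hy
      right
      apply hthick
      omega
    · have h3 : ∑ y ∈ Ico J κ, hh hf y ≤ 18 * M ^ 2 := by
        rcases le_total (f (2 * M) + 1) (κ - M) with h4 | h4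
        · have hJe : J = f (2 * M) + 1 := min_eq_left h4
          have hw2 : w ≤ 2 * M := by
            by_contra h5
            have := hf.wall (2 * M) (by omega)
            omega
          refine (sum_Ico_le _ J κ (2 * M) (fun y hy _ => hthin y (by omega))).trans ?_
          have h5 : (κ - J) * (2 * M) ≤ (9 * M) * (2 * M) := Nat.mul_le_mul (by omega) le_rfl
          nlinarith
        · have hJe : J = κ - M := min_eq_right h4
          refine (sum_Ico_le _ J κ (5 * M + 1) (fun y hy hy2 => ?_)).trans ?_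
          · have := hh_far hf (j := κ - y) (by omega) (by omega)
            have h5 : κ - (κ - y) = y := by omega
            rw [h5] at this
            omega
          · have h5 : (κ - J) * (5 * M + 1) ≤ M * (5 * M + 1) :=
              Nat.mul_le_mul (by omega) le_rfl
            nlinarith
      have h4 : ∑ y ∈ range κ, hh hf y = ∑ y ∈ Ico 0 J, hh hf y + ∑ y ∈ Ico J κ, hh hf y := by
        rw [range_eq_Ico, sum_Ico_consecutive _ (Nat.zero_le _) (by omega)]
      omega

end Pool.Agent.Helper43.Gm.PkH3
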